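import Mathlib

set_option autoImplicit false

open scoped Pointwise

namespace Pool.Agent.Results.MP_2b78ec_gt.ProjectionInvariant

/-- Euclidean space `ℝⁿ`. -/
abbrev E (n : ℕ) : Type := EuclideanSpace ℝ (Fin n)

/-- The class `𝒦ⁿ` of nonempty compact convex subsets of `ℝⁿ`. -/
def KK (n : ℕ) : Set (Set (E n)) := {K | K.Nonempty ∧ IsCompact K ∧ Convex ℝ K}

/-- The class `𝒦ⁿₙ` of convex bodies: members of `𝒦ⁿ` with nonempty interior. -/
def KKn (n : ℕ) : Set (Set (E n)) := {K | K ∈ KK n ∧ (interior K).Nonempty}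

/-- The reflection `X†` of `X` in `H`: the image of `X` under `x ↦ 2 (x|H) - x`. -/
def dagger {n : ℕ} (H : Submodule ℝ (E n)) (X : Set (E n)) : Set (E n) :=
  (fun x => (2 : ℝ) • H.starProjection x - x) '' X

/-- `𝓑_H`: the `H`-symmetric members of `𝓑`. -/
def symmMembers {n : ℕ} (H : Submodule ℝ (E n)) (𝓑 : Set (Set (E n))) : Set (Set (E n)) :=
  {K | K ∈ 𝓑 ∧ dagger H K = K}

/-- The orthogonal projection `X|H` of a set `X` on `H`. -/
def proj {n : ℕ} (H : Submodule ℝ (E n)) (X : Set (E n)) : Set (E n) :=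
  (fun x => H.starProjection x) '' X

/-- `C` is an `H`-symmetric spherical cylinder `D_r(x) + s (Bⁿ ∩ Hᗮ)`, where `D_r(x) ⊆ H` is the
ball in `H` with centre `x ∈ H` and radius `r > 0`, and `s > 0`. -/
def IsSphericalCylinder {n : ℕ} (H : Submodule ℝ (E n)) (C : Set (E n)) : Prop :=
  ∃ x ∈ H, ∃ r > (0 : ℝ), ∃ s > (0 : ℝ),
    C = (Metric.closedBall x r ∩ (H : Set (E n))) +
      s • (Metric.closedBall (0 : E n) 1 ∩ (Hᗮ : Set (E n)))

section lemmas

variable {n : ℕ} (H : Submodule ℝ (E n))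

/-- the spherical cylinder, as a set -/
def cyl (x : E n) (r s : ℝ) : Set (E n) :=
  (Metric.closedBall x r ∩ (H : Set (E n))) +
      s • (Metric.closedBall (0 : E n) 1 ∩ (Hᗮ : Set (E n)))

lemma starProjection_add_of_mem {a b : E n} (ha : a ∈ H) (hb : b ∈ Hᗮ) :
    H.starProjection (a + b) = a := by
  rw [map_add, Submodule.starProjection_eq_self_iff.2 ha,
    (Submodule.starProjection_apply_eq_zero_iff H).2 hb, add_zero]

lemma sub_starProjection_mem (z : E n) : z - H.starProjection z ∈ Hᗮ :=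
  Submodule.sub_starProjection_mem_orthogonal z

lemma norm_starProjection_le (z : E n) : ‖H.starProjection z‖ ≤ ‖z‖ := by
  have h := H.starProjection.le_opNorm z
  have h' := Submodule.starProjection_norm_le (K := H)
  calc ‖H.starProjection z‖ ≤ ‖H.starProjection‖ * ‖z‖ := h
    _ ≤ 1 * ‖z‖ := by gcongr
    _ = ‖z‖ := one_mul _

lemma norm_sub_starProjection_le (z : E n) : ‖z - H.starProjection z‖ ≤ ‖z‖ := by
  have h : z - H.starProjection z = Hᗮ.starProjection z := by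
    rw [Submodule.starProjection_orthogonal_val]
  rw [h]
  exact norm_starProjection_le Hᗮ z

lemma mem_cyl_of {x z : E n} {r s : ℝ} (hs : 0 < s)
    (h1 : ‖H.starProjection z - x‖ ≤ r) (h2 : ‖z - H.starProjection z‖ ≤ s) :
    z ∈ cyl H x r s := by
  refine Set.mem_add.2 ⟨H.starProjection z, ⟨?_, Submodule.starProjection_apply_mem H z⟩,
    z - H.starProjection z, ?_, by abel⟩
  · rwa [mem_closedBall_iff_norm]
  · refine Set.mem_smul_set.2 ⟨s⁻¹ • (z - H.starProjection z), ⟨?_, ?_⟩, ?_⟩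
    · rw [mem_closedBall_zero_iff, norm_smul, norm_inv, Real.norm_of_nonneg hs.le]
      rw [inv_mul_le_iff₀ hs]
      linarith
    · exact Submodule.smul_mem _ _ (sub_starProjection_mem H z)
    · rw [smul_inv_smul₀ hs.ne']

lemma proj_mem_of_mem_cyl {x z : E n} {r s : ℝ} (hz : z ∈ cyl H x r s) :
    ‖H.starProjection z - x‖ ≤ r := by
  obtain ⟨a, ⟨ha, haH⟩, b, hb, rfl⟩ := Set.mem_add.1 hz
  obtain ⟨c, ⟨hc, hcH⟩, rfl⟩ := Set.mem_smul_set.1 hb
  rw [starProjection_add_of_mem H haH (Submodule.smul_mem _ _ hcH)]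
  rwa [mem_closedBall_iff_norm] at ha

lemma cyl_mem_KKn {x : E n} (hx : x ∈ H) {r s : ℝ} (hr : 0 < r) (hs : 0 < s) :
    cyl H x r s ∈ KKn n := by
  have hball : Metric.ball x (min r s) ⊆ cyl H x r s := by
    intro w hw
    rw [mem_ball_iff_norm] at hw
    have hxp : H.starProjection x = x := Submodule.starProjection_eq_self_iff.2 hx
    apply mem_cyl_of H hs
    · have : H.starProjection w - x = H.starProjection (w - x) := by rw [map_sub, hxp]
      rw [this]
      exact (norm_starProjection_le H _).trans (hw.le.trans (min_le_left _ _))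
    · have : w - H.starProjection w = (w - x) - H.starProjection (w - x) := by
        rw [map_sub, hxp]; abel
      rw [this]
      exact (norm_sub_starProjection_le H _).trans (hw.le.trans (min_le_right _ _))
  have hxm : x ∈ Metric.ball x (min r s) := Metric.mem_ball_self (lt_min hr hs)
  refine ⟨⟨⟨x, hball hxm⟩, ?_, ?_⟩, ⟨x, interior_maximal hball Metric.isOpen_ball hxm⟩⟩
  · apply IsCompact.add
    · exact (isCompact_closedBall x r).inter_right (Submodule.closed_of_finiteDimensional H)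
    · exact ((isCompact_closedBall (0 : E n) 1).inter_right
        (Submodule.closed_of_finiteDimensional Hᗮ)).smul s
  · apply Convex.add
    · exact (convex_closedBall x r).inter H.convex
    · exact ((convex_closedBall (0 : E n) 1).inter Hᗮ.convex).smul s

/-- A compact convex subset of `H` is the intersection of the balls centred in `H` containing it. -/
lemma exists_ball {P : Set (E n)} (hPne : P.Nonempty) (hPc : IsCompact P) (hPconv : Convex ℝ P)
    (hPH : P ⊆ H) {p : E n} (hpH : p ∈ H) (hp : p ∉ P) :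
    ∃ x ∈ H, ∃ r > (0 : ℝ), P ⊆ Metric.closedBall x r ∧ r < ‖p - x‖ := by
  obtain ⟨q, hqP, hq⟩ := exists_norm_eq_iInf_of_complete_convex hPne hPc.isComplete hPconv p
  rw [norm_eq_iInf_iff_real_inner_le_zero hPconv hqP] at hq
  set u : E n := p - q with hu
  have hune : u ≠ 0 := by
    intro h
    apply hp
    rw [hu, sub_eq_zero] at h
    rwa [h]
  have hupos : 0 < ‖u‖ := norm_pos_iff.2 hune
  obtain ⟨R, hR⟩ := hPc.isBounded.exists_norm_le
  have hRb : ∀ z ∈ P, ‖z - q‖ ≤ 2 * R := by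
    intro z hz
    calc ‖z - q‖ ≤ ‖z‖ + ‖q‖ := norm_sub_le _ _
      _ ≤ R + R := add_le_add (hR z hz) (hR q hqP)
      _ = 2 * R := by ring
  have hR0 : 0 ≤ R := (norm_nonneg q).trans (hR q hqP)
  set t : ℝ := (2 * R) ^ 2 / ‖u‖ ^ 2 with ht
  have ht0 : 0 ≤ t := by positivity
  have htu : t * ‖u‖ ^ 2 = (2 * R) ^ 2 := by
    rw [ht]; field_simp
  have huH : u ∈ H := H.sub_mem hpH (hPH hqP)
  refine ⟨q - t • u, H.sub_mem (hPH hqP) (H.smul_mem _ huH),
    √((2 * R) ^ 2 + t ^ 2 * ‖u‖ ^ 2 + ‖u‖ ^ 2 / 2), by positivity, ?_, ?_⟩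
  · intro z hz
    rw [mem_closedBall_iff_norm]
    apply Real.le_sqrt_of_sq_le
    have e : z - (q - t • u) = (z - q) + t • u := by abel
    rw [e, norm_add_sq_real, norm_smul, inner_smul_right, mul_pow, Real.norm_eq_abs, sq_abs]
    have h1 : inner ℝ (z - q) u ≤ 0 := by
      rw [real_inner_comm]
      exact hq z hz
    have h2 : ‖z - q‖ ^ 2 ≤ (2 * R) ^ 2 := by
      have := hRb z hz
      gcongr
    have h3 : t * inner ℝ (z - q) u ≤ 0 := mul_nonpos_of_nonneg_of_nonpos ht0 h1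
    have h4 : 0 ≤ ‖u‖ ^ 2 / 2 := by positivity
    linarith
  · apply Real.sqrt_lt_sqrt_iff_of_pos _ |>.2 _ |>.trans_eq (Real.sqrt_sq (norm_nonneg _))
    · have e : p - (q - t • u) = (1 + t) • u := by
        rw [add_smul, one_smul, hu]; abel
      rw [e, norm_smul, Real.norm_eq_abs, abs_of_pos (by positivity)]
      positivity
    · have e : p - (q - t • u) = (1 + t) • u := by
        rw [add_smul, one_smul, hu]; abel
      rw [e, norm_smul, Real.norm_eq_abs, abs_of_pos (by positivity : 0 < 1 + t)]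
      have : ((1 + t) * ‖u‖) ^ 2 = ‖u‖ ^ 2 + 2 * (t * ‖u‖ ^ 2) + t ^ 2 * ‖u‖ ^ 2 := by ring
      rw [this, htu]
      have : 0 < ‖u‖ ^ 2 := by positivity
      nlinarith [sq_nonneg (2 * R)]

end lemmas

section main

variable {n : ℕ} (H : Submodule ℝ (E n)) (𝓑 : Set (Set (E n)))

lemma upper (h1 : 𝓑 ⊆ KK n) (h2 : KKn n ⊆ 𝓑)
    (D : 𝓑 → symmMembers H 𝓑)
    (hmono : ∀ K L : 𝓑, (K : Set (E n)) ⊆ L → (D K : Set (E n)) ⊆ D L)
    (hcyl : ∀ C : 𝓑, IsSphericalCylinder H C → (D C : Set (E n)) = C) (K : 𝓑) :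
    proj H (D K) ⊆ proj H K := by
  rintro _ ⟨y, hy, rfl⟩
  by_contra hnot
  have hK := h1 K.2
  have hPc : IsCompact (proj H (K : Set (E n))) := hK.2.1.image H.starProjection.continuous
  have hPconv : Convex ℝ (proj H (K : Set (E n))) :=
    hK.2.2.linear_image (H.starProjection : E n →ₗ[ℝ] E n)
  have hPne : (proj H (K : Set (E n))).Nonempty := hK.1.image _
  have hPH : proj H (K : Set (E n)) ⊆ H := by
    rintro _ ⟨z, -, rfl⟩
    exact Submodule.starProjection_apply_mem H z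
  obtain ⟨x, hxH, r, hr, hPr, hlt⟩ := exists_ball H hPne hPc hPconv hPH
    (Submodule.starProjection_apply_mem H y) hnot
  obtain ⟨R, hR⟩ := hK.2.1.isBounded.exists_norm_le
  have hs : 0 < max R 1 := lt_max_of_lt_right one_pos
  have hsub : (K : Set (E n)) ⊆ cyl H x r (max R 1) := by
    intro z hz
    apply mem_cyl_of H hs
    · have := hPr ⟨z, hz, rfl⟩
      rwa [mem_closedBall_iff_norm] at this
    · exact (norm_sub_starProjection_le H z).trans ((hR z hz).trans (le_max_left _ _))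
  have hcm : cyl H x r (max R 1) ∈ 𝓑 := h2 (cyl_mem_KKn H hxH hr hs)
  have h3 := hmono K ⟨_, hcm⟩ hsub
  rw [hcyl ⟨_, hcm⟩ ⟨x, hxH, r, hr, max R 1, hs, rfl⟩] at h3
  have h4 := proj_mem_of_mem_cyl H (h3 hy)
  exact absurd h4 (not_le.2 hlt)

lemma shrink_mem {K : Set (E n)} (hK : K ∈ KK n) {k : E n} (hk : k ∈ K) {t : ℝ} (ht : 0 < t)
    (ht1 : t ≤ 1) :
    (AffineMap.homothety k t '' K) ∈ KK n ∧ (AffineMap.homothety k t '' K) ⊆ K ∧
    (K ∈ KKn n → (AffineMap.homothety k t '' K) ∈ KKn n) := by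
  have hcont : Continuous (AffineMap.homothety k t : E n →ᵃ[ℝ] E n) :=
    AffineMap.homothety_continuous k t
  have hKK : (AffineMap.homothety k t '' K) ∈ KK n :=
    ⟨hK.1.image _, hK.2.1.image hcont, hK.2.2.affine_image _⟩
  refine ⟨hKK, ?_, ?_⟩
  · rintro _ ⟨z, hz, rfl⟩
    have : AffineMap.homothety k t z = (1 - t) • k + t • z := by
      rw [AffineMap.homothety_apply, vsub_eq_sub, vadd_eq_add]
      module
    rw [this]
    exact hK.2.2 hk hz (by linarith) ht.le (by ring)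
  · rintro ⟨-, hint⟩
    refine ⟨hKK, ?_⟩
    have hopen : IsOpenMap (AffineMap.homothety k t : E n →ᵃ[ℝ] E n) :=
      AffineMap.homothety_isOpenMap k t ht.ne'
    exact (hint.image _).mono (hopen.image_interior_subset K)

lemma lower (h1 : 𝓑 ⊆ KK n) (h2 : KKn n ⊆ 𝓑)
    (h3 : ∀ K ∈ 𝓑, ∀ k ∈ K, ∀ t : ℝ, 0 < t → t ≤ 1 → (AffineMap.homothety k t '' K) ∈ 𝓑)
    (D : 𝓑 → symmMembers H 𝓑)
    (hmono : ∀ K L : 𝓑, (K : Set (E n)) ⊆ L → (D K : Set (E n)) ⊆ D L)
    (hcyl : ∀ C : 𝓑, IsSphericalCylinder H C → (D C : Set (E n)) = C) (K : 𝓑) :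
    proj H K ⊆ proj H (D K) := by
  rintro _ ⟨k, hk, rfl⟩
  have hK := h1 K.2
  have hDK := h1 (D K).2.1
  have hclosed : IsClosed (proj H (D K : Set (E n))) :=
    (hDK.2.1.image H.starProjection.continuous).isClosed
  change H.starProjection k ∈ proj H (D K : Set (E n))
  rw [← hclosed.closure_eq, Metric.mem_closure_iff]
  intro ε hε
  obtain ⟨R, hR⟩ := hK.2.1.isBounded.exists_norm_le
  have hR0 : 0 ≤ R := (norm_nonneg k).trans (hR k hk)
  obtain ⟨t, ht0, ht1, htε⟩ : ∃ t : ℝ, 0 < t ∧ t ≤ 1 ∧ t * (2 * R) < ε := by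
    refine ⟨min 1 (ε / (2 * (2 * R + 1))), by positivity, min_le_left _ _, ?_⟩
    calc min 1 (ε / (2 * (2 * R + 1))) * (2 * R) ≤ ε / (2 * (2 * R + 1)) * (2 * R) := by
          gcongr; exact min_le_right _ _
      _ = ε * ((2 * R) / (2 * (2 * R + 1))) := by ring
      _ < ε * 1 := by
          gcongr
          rw [div_lt_one (by positivity)]
          linarith
      _ = ε := mul_one _
  obtain ⟨-, hsub, -⟩ := shrink_mem hK hk ht0 ht1
  have hmem := h3 K K.2 k hk t ht0 ht1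
  let K' : 𝓑 := ⟨_, hmem⟩
  have hD' := h1 (D K').2.1
  obtain ⟨y, hy⟩ := hD'.1
  have hyK : y ∈ (D K : Set (E n)) := hmono K' K hsub hy
  obtain ⟨w, ⟨z, hz, hzw⟩, hw⟩ := upper H 𝓑 h1 h2 D hmono hcyl K' ⟨y, hy, rfl⟩
  refine ⟨H.starProjection y, ⟨y, hyK, rfl⟩, ?_⟩
  have hw' : H.starProjection w = H.starProjection y := hw
  rw [← hw', dist_eq_norm, ← map_sub]
  refine lt_of_le_of_lt (norm_starProjection_le H _) ?_
  have : k - w = t • (k - z) := by
    rw [← hzw, AffineMap.homothety_apply, vsub_eq_sub, vadd_eq_add]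
    module
  rw [this, norm_smul, Real.norm_of_nonneg ht0.le]
  refine lt_of_le_of_lt ?_ htε
  gcongr
  calc ‖k - z‖ ≤ ‖k‖ + ‖z‖ := norm_sub_le _ _
    _ ≤ R + R := add_le_add (hR k hk) (hR z hz)
    _ = 2 * R := by ring

end main

/-- **Main theorem.** Let `H` be a linear subspace of `ℝⁿ` and let `𝓑` be `𝒦ⁿ` or `𝒦ⁿₙ`.  Every
monotonic symmetrization `𝓑 → 𝓑_H` which is invariant on `H`-symmetric spherical cylinders is
projection invariant. -/
theorem result : ∀ (n : ℕ) (H : Submodule ℝ (E n)) (𝓑 : Set (Set (E n))),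
    (𝓑 = KK n ∨ 𝓑 = KKn n) →
    ∀ D : 𝓑 → symmMembers H 𝓑,
      (∀ K L : 𝓑, (K : Set (E n)) ⊆ L → (D K : Set (E n)) ⊆ D L) →
      (∀ C : 𝓑, IsSphericalCylinder H C → (D C : Set (E n)) = C) →
      ∀ K : 𝓑, proj H (D K) = proj H K := by
  intro n H 𝓑 h𝓑 D hmono hcyl K
  have hsub : KKn n ⊆ KK n := fun K hK => hK.1
  have h1 : 𝓑 ⊆ KK n := by
    rcases h𝓑 with rfl | rfl
    · exact subset_rfl
    · exact hsub
  have h2 : KKn n ⊆ 𝓑 := by
    rcases h𝓑 with rfl | rfl
    · exact hsub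
    · exact subset_rfl
  have h3 : ∀ K ∈ 𝓑, ∀ k ∈ K, ∀ t : ℝ, 0 < t → t ≤ 1 →
      (AffineMap.homothety k t '' K) ∈ 𝓑 := by
    rcases h𝓑 with rfl | rfl
    · intro K hK k hk t ht ht1
      exact (shrink_mem hK hk ht ht1).1
    · intro K hK k hk t ht ht1
      exact (shrink_mem hK.1 hk ht ht1).2.2 hK
  exact (upper H 𝓑 h1 h2 D hmono hcyl K).antisymm (lower H 𝓑 h1 h2 h3 D hmono hcyl K)

end Pool.Agent.Results.MP_2b78ec_gt.ProjectionInvariant
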